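import Pool.Agent.Helper99.BK.Stmts

set_option autoImplicit false

/-! Module AN10 of the crew table `bk_mods`. -/

namespace Pool.Helper99.BK

theorem an10_expand {ι : Type} [Fintype ι] [DecidableEq ι] (a e : ι → ι → ℂ) :
    (Matrix.of (fun p j => a p j + a p j * e p j)).det =
      ∑ s : Finset ι, (Matrix.of (fun p j => if j ∈ s then a p j else a p j * e p j)).det := by
  rw [← Matrix.det_transpose]
  have h1 : (Matrix.of (fun p j => a p j + a p j * e p j)).transpose.det =
      (Matrix.detRowAlternating (n := ι) (R := ℂ)).toMultilinearMap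
        ((fun j p => a p j) + (fun j p => a p j * e p j)) := rfl
  rw [h1, MultilinearMap.map_add_univ]
  refine Finset.sum_congr rfl fun s _ => ?_
  rw [← Matrix.det_transpose]
  have h2 : (s.piecewise (fun j p => a p j) (fun j p => a p j * e p j) : ι → ι → ℂ) =
      (Matrix.of (fun p j => if j ∈ s then a p j else a p j * e p j)).transpose := by
    ext j p
    by_cases hj : j ∈ s
    · simp [Finset.piecewise_eq_of_mem _ _ _ hj, hj]
    · simp [Finset.piecewise_eq_of_notMem _ _ _ hj, hj]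
  rw [h2]
  rfl

theorem an10_calc (N n : ℝ) (h4 : 4 ≤ N) (h0 : 0 ≤ n) (hn : n ≤ N) :
    N ^ 2 / 16 ≤ (N - n) * N + n * (n - 1) / 2 := by
  nlinarith [mul_nonneg h0 (sub_nonneg.2 hn), mul_nonneg (sub_nonneg.2 h4) (sub_nonneg.2 hn),
    sq_nonneg (N - n)]

theorem st_AN10 (h9 : ST_AN9) : ST_AN10 := by
  intro K Lc hN z1 κ l1 l0 Z C0 hZ hC0 hz1 hκ hzl hl0
  set N : ℕ := K * Lc with hNdef
  set B : ℝ := (3 * Z) ^ K * Real.exp (3 * Lc * C0) with hB
  have hB0 : 0 ≤ B := by positivity
  -- the two parts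
  set a : Fin K × Fin Lc → Fin K × Fin Lc → ℂ := fun p j =>
    z1 p ^ (j.1 : ℕ) * Complex.exp (((j.2 : ℕ) : ℂ) * (z1 p * l1)) with ha
  set e : Fin K × Fin Lc → Fin K × Fin Lc → ℂ := fun p j =>
    Complex.exp (((j.2 : ℕ) : ℂ) * (κ p * l0)) - 1 with he
  have hsplit : (fun p j : Fin K × Fin Lc => z1 p ^ (j.1 : ℕ) *
      Complex.exp (((j.2 : ℕ) : ℂ) * (κ p * l0 + z1 p * l1))) =
      fun p j => a p j + a p j * e p j := by
    funext p j
    simp only [ha, he]
    rw [mul_add (((j.2 : ℕ) : ℂ)), Complex.exp_add]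
    ring
  have haB : ∀ p j, ‖a p j‖ ≤ B := by
    intro p j
    simp only [ha]
    rw [norm_mul, norm_pow, Complex.norm_exp]
    have h1 : ‖z1 p‖ ^ (j.1 : ℕ) ≤ (3 * Z) ^ K := by
      calc ‖z1 p‖ ^ (j.1 : ℕ) ≤ (3 * Z) ^ (j.1 : ℕ) :=
            pow_le_pow_left₀ (norm_nonneg _) (by linarith [hz1 p]) _
        _ ≤ (3 * Z) ^ K := pow_le_pow_right₀ (by linarith) j.1.isLt.le
    have h2 : ((((j.2 : ℕ) : ℂ) * (z1 p * l1))).re ≤ 3 * Lc * C0 := by
      calc ((((j.2 : ℕ) : ℂ) * (z1 p * l1))).re ≤ ‖((j.2 : ℕ) : ℂ) * (z1 p * l1)‖ :=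
            Complex.re_le_norm _
        _ = ((j.2 : ℕ) : ℝ) * ‖z1 p * l1‖ := by rw [norm_mul, Complex.norm_natCast]
        _ ≤ (Lc : ℝ) * C0 := by
            refine mul_le_mul ?_ (hzl p) (norm_nonneg _) (Nat.cast_nonneg _)
            exact_mod_cast j.2.isLt.le
        _ ≤ 3 * Lc * C0 := by
            have : 0 ≤ (Lc : ℝ) * C0 := mul_nonneg (Nat.cast_nonneg _) hC0
            linarith
    exact mul_le_mul h1 (Real.exp_le_exp.2 h2) (Real.exp_pos _).le (by positivity)
  have heN : ∀ p j, ‖e p j‖ ≤ Real.exp (-(N : ℝ)) := by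
    intro p j
    simp only [he]
    have h1 : ‖((j.2 : ℕ) : ℂ) * (κ p * l0)‖ ≤ Lc * Z * ‖l0‖ := by
      rw [norm_mul, norm_mul, Complex.norm_natCast, mul_assoc]
      refine mul_le_mul ?_ ?_ (by positivity) (Nat.cast_nonneg _)
      · exact_mod_cast j.2.isLt.le
      · exact mul_le_mul_of_nonneg_right (hκ p) (norm_nonneg _)
    have h2 : Real.exp (-(N : ℝ)) ≤ 1 := by
      rw [Real.exp_le_one_iff]
      have : (0 : ℝ) ≤ (N : ℝ) := Nat.cast_nonneg _
      linarith
    have h3 : ‖((j.2 : ℕ) : ℂ) * (κ p * l0)‖ ≤ 1 := by linarith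
    have h4 := Complex.norm_exp_sub_one_le h3
    linarith
  rw [hsplit, an10_expand]
  refine (norm_sum_le _ _).trans ?_
  have hcard : (Finset.univ : Finset (Finset (Fin K × Fin Lc))).card = 2 ^ N := by
    rw [Finset.card_univ, Fintype.card_finset, Fintype.card_prod, Fintype.card_fin,
      Fintype.card_fin]
  have hterm : ∀ s : Finset (Fin K × Fin Lc),
      ‖(Matrix.of (fun p j => if j ∈ s then a p j else a p j * e p j)).det‖ ≤
        ((N.factorial : ℝ) * B ^ N) * Real.exp (1 - (N : ℝ) ^ 2 / 16) := by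
    intro s
    set w : Fin K × Fin Lc → ℂ := fun j => if j ∈ s then 1 else
      ((Real.exp (-(N : ℝ)) : ℝ) : ℂ) with hw
    set A : Matrix (Fin K × Fin Lc) (Fin K × Fin Lc) ℂ := fun p j =>
      a p j * e p j * ((Real.exp (N : ℝ) : ℝ) : ℂ) with hA
    have hexp : ((Real.exp (-(N : ℝ)) : ℝ) : ℂ) * ((Real.exp (N : ℝ) : ℝ) : ℂ) = 1 := by
      rw [← Complex.ofReal_mul, ← Real.exp_add, neg_add_cancel, Real.exp_zero,
        Complex.ofReal_one]
    have h1 : (Matrix.of (fun p j => if j ∈ s then a p j else a p j * e p j)) =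
        Matrix.of (fun p j => w j * (Matrix.of (fun p j : Fin K × Fin Lc => if j ∈ s then
          z1 p ^ (j.1 : ℕ) * Complex.exp (((j.2 : ℕ) : ℂ) * (z1 p * l1)) else A p j)) p j) := by
      ext p j
      simp only [Matrix.of_apply]
      by_cases hj : j ∈ s
      · simp only [hj, if_true, hw, one_mul, ha]
      · simp only [hj, if_false, hw, hA]
        linear_combination (-(a p j * e p j)) * hexp
    have hAB : ∀ p j, ‖A p j‖ ≤ B := by
      intro p j
      simp only [hA]
      rw [norm_mul, norm_mul, Complex.norm_real, Real.norm_eq_abs, abs_of_pos (Real.exp_pos _)]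
      have h2 : ‖e p j‖ * Real.exp (N : ℝ) ≤ 1 := by
        calc ‖e p j‖ * Real.exp (N : ℝ) ≤ Real.exp (-(N : ℝ)) * Real.exp (N : ℝ) :=
              mul_le_mul_of_nonneg_right (heN p j) (Real.exp_pos _).le
          _ = 1 := by rw [← Real.exp_add, neg_add_cancel, Real.exp_zero]
      calc ‖a p j‖ * ‖e p j‖ * Real.exp (N : ℝ) = ‖a p j‖ * (‖e p j‖ * Real.exp (N : ℝ)) := by
            ring
        _ ≤ B * 1 := mul_le_mul (haB p j) h2 (by positivity) hB0
        _ = B := mul_one B
    have h9' := h9 K Lc s z1 l1 A Z C0 B hZ hC0 hz1 hzl le_rfl hAB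
    rw [h1, Matrix.det_mul_row, norm_mul]
    have hprod : ‖∏ j, w j‖ = Real.exp (-(N : ℝ)) ^ (N - s.card) := by
      rw [norm_prod]
      have h2 : ∀ j, ‖w j‖ = if j ∈ s then 1 else Real.exp (-(N : ℝ)) := by
        intro j
        simp only [hw]
        by_cases hj : j ∈ s
        · simp [hj]
        · simp only [hj, if_false]
          rw [Complex.norm_real, Real.norm_eq_abs, abs_of_pos (Real.exp_pos _)]
      rw [Finset.prod_congr rfl fun j _ => h2 j, Finset.prod_ite, Finset.prod_const_one, one_mul,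
        Finset.prod_const]
      congr 1
      have h3 : (Finset.univ.filter fun j => j ∉ s) = sᶜ := by
        ext j; simp
      rw [h3, Finset.card_compl, Fintype.card_prod, Fintype.card_fin, Fintype.card_fin]
    have hscard : s.card ≤ N := by
      have := Finset.card_le_univ s
      rwa [Fintype.card_prod, Fintype.card_fin, Fintype.card_fin] at this
    rw [hprod]
    have hfin : Real.exp (-(N : ℝ)) ^ (N - s.card) *
        (Real.exp (1 - (s.card : ℝ) * ((s.card : ℝ) - 1) / 2)) ≤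
          Real.exp (1 - (N : ℝ) ^ 2 / 16) := by
      rw [← Real.exp_nat_mul, ← Real.exp_add, Real.exp_le_exp, Nat.cast_sub hscard]
      have h5 := an10_calc (N : ℝ) (s.card : ℝ) (by exact_mod_cast hN) (Nat.cast_nonneg _)
        (by exact_mod_cast hscard)
      nlinarith
    calc Real.exp (-(N : ℝ)) ^ (N - s.card) * _
        ≤ Real.exp (-(N : ℝ)) ^ (N - s.card) *
          (Real.exp (1 - (s.card : ℝ) * ((s.card : ℝ) - 1) / 2) *
            ((N.factorial : ℝ) * B ^ N)) :=
          mul_le_mul_of_nonneg_left h9' (by positivity)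
      _ = (Real.exp (-(N : ℝ)) ^ (N - s.card) *
          Real.exp (1 - (s.card : ℝ) * ((s.card : ℝ) - 1) / 2)) *
            ((N.factorial : ℝ) * B ^ N) := by ring
      _ ≤ Real.exp (1 - (N : ℝ) ^ 2 / 16) * ((N.factorial : ℝ) * B ^ N) :=
          mul_le_mul_of_nonneg_right hfin (by positivity)
      _ = _ := by ring
  refine (Finset.sum_le_sum fun s _ => hterm s).trans ?_
  rw [Finset.sum_const, hcard, nsmul_eq_mul]
  push_cast
  exact le_of_eq (by ring)

end Pool.Helper99.BK
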