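import Pool.Agent.Helper99.BK.Stmts

set_option autoImplicit false

/-! Module DV3 of the crew table `bk_mods`. -/

namespace Pool.Helper99.BK

open NumberField

theorem dv3_one (K : Type) [Field K] [NumberField K] :
    {M : Ideal (𝓞 K) | M ∣ 1}.ncard = 1 := by
  have : {M : Ideal (𝓞 K) | M ∣ 1} = {1} := by
    ext M
    rw [Set.mem_setOf_eq, Set.mem_singleton_iff]
    constructor
    · intro h
      rw [Ideal.dvd_iff_le] at h
      exact (Ideal.one_eq_top (R := 𝓞 K)).symm ▸ (top_le_iff.1 ((Ideal.one_eq_top (R := 𝓞 K)) ▸ h))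
    · rintro rfl
      exact dvd_rfl
  rw [this, Set.ncard_singleton]

theorem dv3_multiset (h1 : ST_DV1) (K : Type) [Field K] [NumberField K] (v : ℕ)
    (s : Multiset (Ideal (𝓞 K))) (hs : ∀ P ∈ s, Prime P) :
    s.prod ≠ ⊥ ∧ {M : Ideal (𝓞 K) | M ∣ s.prod ^ v}.ncard ≤ (v + 1) ^ s.card := by
  induction s using Multiset.induction_on with
  | empty =>
    refine ⟨?_, ?_⟩
    · rw [Multiset.prod_zero]
      exact one_ne_zero
    · rw [Multiset.prod_zero, one_pow, dv3_one, Multiset.card_zero, pow_zero]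
  | cons P s ih =>
    obtain ⟨ih1, ih2⟩ := ih fun Q hQ => hs Q (Multiset.mem_cons_of_mem hQ)
    have hP : Prime P := hs P (Multiset.mem_cons_self P s)
    have hP0 : P ≠ ⊥ := hP.ne_zero
    refine ⟨?_, ?_⟩
    · rw [Multiset.prod_cons]
      exact mul_ne_zero hP.ne_zero ih1
    · rw [Multiset.prod_cons, mul_pow, Multiset.card_cons, pow_succ, mul_comm ((v + 1) ^ s.card)]
      refine ((h1 K (P ^ v) (s.prod ^ v) (pow_ne_zero v hP0) (pow_ne_zero v ih1)).2.1).trans ?_
      exact Nat.mul_le_mul (((h1 K P P hP0 hP0).2.2 hP v).le) ih2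

theorem dv3_span (h1 : ST_DV1) (h2 : ST_DV2) (K : Type) [Field K] [NumberField K]
    (h3 : Module.finrank ℚ K = 3) (n : ℕ) : n ≠ 0 →
    {M : Ideal (𝓞 K) | M ∣ Ideal.span {(n : 𝓞 K)}}.ncard ≤ n.divisors.card ^ 3 := by
  induction n using Nat.recOnPosPrimePosCoprime with
  | prime_pow p v hp hv =>
    intro _
    obtain ⟨s, hs1, hs2, hs3⟩ := h2 K h3 p hp
    have e1 : Ideal.span {((p ^ v : ℕ) : 𝓞 K)} = s.prod ^ v := by
      rw [hs3, Ideal.span_singleton_pow, Nat.cast_pow]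
    rw [e1, Nat.divisors_prime_pow hp, Finset.card_map, Finset.card_range]
    refine ((dv3_multiset h1 K v s hs2).2).trans ?_
    exact Nat.pow_le_pow_right (by omega) hs1
  | zero => intro h; exact absurd rfl h
  | one =>
    intro _
    rw [Nat.cast_one, Ideal.span_singleton_one, ← Ideal.one_eq_top, dv3_one, Nat.divisors_one,
      Finset.card_singleton, one_pow]
  | coprime a b ha hb hab iha ihb =>
    intro _
    have ha0 : a ≠ 0 := by omega
    have hb0 : b ≠ 0 := by omega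
    have e1 : Ideal.span {((a * b : ℕ) : 𝓞 K)} =
        Ideal.span {(a : 𝓞 K)} * Ideal.span {(b : 𝓞 K)} := by
      rw [Ideal.span_singleton_mul_span_singleton, Nat.cast_mul]
    have hab0 : ∀ c : ℕ, c ≠ 0 → Ideal.span {(c : 𝓞 K)} ≠ ⊥ := by
      intro c hc
      rw [Ne, Ideal.span_singleton_eq_bot, Nat.cast_eq_zero]
      exact hc
    rw [e1, Nat.Coprime.card_divisors_mul hab, mul_pow]
    exact ((h1 K _ _ (hab0 a ha0) (hab0 b hb0)).2.1).trans (Nat.mul_le_mul (iha ha0) (ihb hb0))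

theorem st_DV3 (h1 : ST_DV1) (h2 : ST_DV2) : ST_DV3 := by
  intro K _ _ h3 n hn
  refine (Set.ncard_le_ncard ?_ ?_).trans (dv3_span h1 h2 K h3 n hn)
  · intro J hJ
    rw [Set.mem_setOf_eq] at hJ ⊢
    rw [Ideal.dvd_span_singleton, ← hJ]
    exact Ideal.absNorm_mem J
  · have hne : Ideal.span {(n : 𝓞 K)} ≠ ⊥ := by
      rw [Ne, Ideal.span_singleton_eq_bot, Nat.cast_eq_zero]
      exact hn
    exact (h1 K _ _ hne hne).1

end Pool.Helper99.BK
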