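import Pool.Agent.Helper99.BK.Stmts

set_option autoImplicit false

/-! Module MINK of the crew table `bk_mods`. -/

namespace Pool.Helper99.BK

open NumberField NumberField.mixedEmbedding NumberField.InfinitePlace
open scoped NNReal ENNReal

theorem st_MINK : ST_MINK := by
  intro K _ _ f hf hlt
  classical
  have key : minkowskiBound K ↑1 <
      MeasureTheory.volume (convexBodyLT K (fun w => (f w).toNNReal)) := by
    have h2 : NNReal.sqrt ‖discr K‖₊ < ∏ w, (f w).toNNReal ^ mult w := by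
      rw [← NNReal.coe_lt_coe]
      have e1 : ((NNReal.sqrt ‖discr K‖₊ : ℝ≥0) : ℝ) = Real.sqrt |(discr K : ℝ)| := by
        rw [Real.coe_sqrt, coe_nnnorm, Int.norm_eq_abs]
      have e2 : ((∏ w, (f w).toNNReal ^ mult w : ℝ≥0) : ℝ) = ∏ w, f w ^ mult w := by
        rw [NNReal.coe_prod]
        refine Finset.prod_congr rfl fun w _ => ?_
        rw [NNReal.coe_pow, Real.coe_toNNReal _ (hf w).le]
      rw [e1, e2]
      exact hlt
    have h3 : (2 : ℝ≥0) ^ (nrRealPlaces K + nrComplexPlaces K) * NNReal.sqrt ‖discr K‖₊ <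
        convexBodyLTFactor K * ∏ w, (f w).toNNReal ^ mult w := by
      have h4 : (2 : ℝ≥0) ^ (nrRealPlaces K + nrComplexPlaces K) ≤ convexBodyLTFactor K := by
        have h5 : (2 : ℝ≥0) ≤ NNReal.pi := by
          rw [← NNReal.coe_le_coe]
          exact Real.two_le_pi
        rw [pow_add]
        exact mul_le_mul le_rfl (pow_le_pow_left₀ (by norm_num) h5 _) (by positivity)
          (by positivity)
      calc (2 : ℝ≥0) ^ (nrRealPlaces K + nrComplexPlaces K) * NNReal.sqrt ‖discr K‖₊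
          < (2 : ℝ≥0) ^ (nrRealPlaces K + nrComplexPlaces K) *
              ∏ w, (f w).toNNReal ^ mult w :=
            mul_lt_mul_of_pos_left h2 (by positivity)
        _ ≤ convexBodyLTFactor K * ∏ w, (f w).toNNReal ^ mult w :=
            mul_le_mul h4 le_rfl (by positivity) (by positivity)
    rw [convexBodyLT_volume, minkowskiBound, volume_fundamentalDomain_fractionalIdealLatticeBasis,
      Units.val_one, FractionalIdeal.absNorm_one, Rat.cast_one, ENNReal.ofReal_one, one_mul,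
      mixedEmbedding.finrank, volume_fundamentalDomain_latticeBasis]
    have e3 : (2⁻¹ : ℝ≥0∞) ^ nrComplexPlaces K * ((NNReal.sqrt ‖discr K‖₊ : ℝ≥0) : ℝ≥0∞) *
        2 ^ Module.finrank ℚ K =
        (((2 : ℝ≥0) ^ (nrRealPlaces K + nrComplexPlaces K) * NNReal.sqrt ‖discr K‖₊ : ℝ≥0) :
          ℝ≥0∞) := by
      rw [← card_add_two_mul_card_eq_rank K]
      have e4 : (2 : ℝ≥0∞) ^ (nrRealPlaces K + 2 * nrComplexPlaces K) =
          2 ^ nrComplexPlaces K * 2 ^ (nrRealPlaces K + nrComplexPlaces K) := by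
        rw [← pow_add]; congr 1; ring
      have e5 : (2⁻¹ : ℝ≥0∞) ^ nrComplexPlaces K * 2 ^ nrComplexPlaces K = 1 := by
        rw [← mul_pow, ENNReal.inv_mul_cancel (by norm_num) (by norm_num), one_pow]
      rw [e4, ENNReal.coe_mul, ENNReal.coe_pow]
      calc (2⁻¹ : ℝ≥0∞) ^ nrComplexPlaces K * ((NNReal.sqrt ‖discr K‖₊ : ℝ≥0) : ℝ≥0∞) *
            (2 ^ nrComplexPlaces K * 2 ^ (nrRealPlaces K + nrComplexPlaces K))
          = ((2⁻¹ : ℝ≥0∞) ^ nrComplexPlaces K * 2 ^ nrComplexPlaces K) *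
              (2 ^ (nrRealPlaces K + nrComplexPlaces K) *
                ((NNReal.sqrt ‖discr K‖₊ : ℝ≥0) : ℝ≥0∞)) := by ring
        _ = _ := by rw [e5, one_mul]; rfl
    rw [e3, ← ENNReal.coe_mul]
    exact ENNReal.coe_lt_coe.2 h3
  obtain ⟨c, hc, hw⟩ := exists_ne_zero_mem_ringOfIntegers_lt K key
  refine ⟨c, hc, fun w => ?_⟩
  have := hw w
  rwa [Real.coe_toNNReal _ (hf w).le] at this

end Pool.Helper99.BK
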