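import Pool.Agent.Helper99.BK.Stmts

set_option autoImplicit false

/-! Module PHa of the crew table `bk_mods`. -/

namespace Pool.Helper99.BK

open NumberField NumberField.InfinitePlace

theorem st_PHa (hM : ST_MINK) : ST_PHa := by
  intro K _ _ h3 h hh hD t ht
  classical
  have hd0 : (discr K : ℝ) ≠ 0 := Int.cast_ne_zero.2 (discr_ne_zero K)
  have hD1 : (1 : ℝ) ≤ |(discr K : ℝ)| := by
    have := Int.one_le_abs (discr_ne_zero K)
    exact_mod_cast this
  set s : ℝ := Real.sqrt |(discr K : ℝ)| with hs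
  have hs1 : 1 ≤ s := Real.one_le_sqrt.2 hD1
  have hlogs : Real.log s ≤ h / 2 := by
    rw [hs, Real.log_sqrt (abs_nonneg _)]
    linarith
  set u : ℝ := Real.log (2 * s) / 3 with hu
  have hu2 : u ≤ h / 2 := by
    rw [hu, Real.log_mul (by norm_num) (by positivity)]
    have := Real.log_two_lt_d9
    linarith
  have hu0 : 0 ≤ u := div_nonneg (Real.log_nonneg (by linarith)) (by norm_num)
  have hsum : ∑ w : InfinitePlace K, (mult w : ℝ) = 3 := by
    have := InfinitePlace.sum_mult_eq (K := K)
    rw [h3] at this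
    exact_mod_cast this
  have hprod : ∏ w : InfinitePlace K, Real.exp (t w + u) ^ mult w = 2 * s := by
    have e1 : ∀ w : InfinitePlace K, Real.exp (t w + u) ^ mult w =
        Real.exp ((mult w : ℝ) * t w + (mult w : ℝ) * u) := by
      intro w
      rw [← Real.exp_nat_mul, mul_add]
    rw [Finset.prod_congr rfl fun w _ => e1 w, ← Real.exp_sum, Finset.sum_add_distrib, ht,
      ← Finset.sum_mul, hsum, zero_add, hu, mul_div_cancel₀ _ (by norm_num : (3 : ℝ) ≠ 0),
      Real.exp_log (by positivity)]
  obtain ⟨c, hc, hw⟩ := hM K (fun w => Real.exp (t w + u)) (fun w => Real.exp_pos _) (by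
    rw [hprod]
    show s < 2 * s
    linarith)
  have hcK : (c : K) ≠ 0 := RingOfIntegers.coe_ne_zero_iff.2 hc
  have hpos : ∀ w : InfinitePlace K, 0 < w (c : K) := fun w => InfinitePlace.pos_iff.2 hcK
  have hN : ∏ w : InfinitePlace K, w (c : K) ^ mult w = |(Algebra.norm ℤ c : ℝ)| := by
    rw [InfinitePlace.prod_eq_abs_norm, ← Algebra.coe_norm_int c]
    push_cast
    rfl
  have hNne : Algebra.norm ℤ c ≠ 0 := Algebra.norm_ne_zero_iff.2 hc
  have hN1 : (1 : ℝ) ≤ |(Algebra.norm ℤ c : ℝ)| := by
    have := Int.one_le_abs hNne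
    exact_mod_cast this
  have hN2 : |(Algebra.norm ℤ c : ℝ)| ≤ 2 * s := by
    rw [← hN, ← hprod]
    exact Finset.prod_le_prod (fun w _ => pow_nonneg (hpos w).le _)
      fun w _ => pow_le_pow_left₀ (hpos w).le (hw w).le _
  have hX : ∀ w : InfinitePlace K, Real.log (w (c : K)) - t w ≤ u := by
    intro w
    have := Real.log_le_log (hpos w) (hw w).le
    rw [Real.log_exp] at this
    linarith
  have hsumX : 0 ≤ ∑ w : InfinitePlace K, (mult w : ℝ) * (Real.log (w (c : K)) - t w) := by
    have e1 : ∑ w : InfinitePlace K, (mult w : ℝ) * (Real.log (w (c : K)) - t w) =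
        Real.log |(Algebra.norm ℤ c : ℝ)| := by
      rw [← hN, Real.log_prod (fun w _ => (pow_pos (hpos w) _).ne')]
      have e2 : ∀ w : InfinitePlace K, Real.log (w (c : K) ^ mult w) =
          (mult w : ℝ) * Real.log (w (c : K)) := fun w => Real.log_pow _ _
      rw [Finset.sum_congr rfl fun w _ => e2 w]
      have e3 : ∑ w : InfinitePlace K, (mult w : ℝ) * (Real.log (w (c : K)) - t w) =
          ∑ w : InfinitePlace K, (mult w : ℝ) * Real.log (w (c : K)) -
            ∑ w : InfinitePlace K, (mult w : ℝ) * t w := by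
        rw [← Finset.sum_sub_distrib]
        exact Finset.sum_congr rfl fun w _ => mul_sub _ _ _
      rw [e3, ht, sub_zero]
    rw [e1]
    exact Real.log_nonneg hN1
  refine ⟨c, hc, fun w => ?_, ?_, ?_⟩
  · have hm1 : (1 : ℝ) ≤ (mult w : ℝ) := by exact_mod_cast InfinitePlace.mult_pos
    have hsplit := Finset.add_sum_erase Finset.univ
      (fun w : InfinitePlace K => (mult w : ℝ) * (Real.log (w (c : K)) - t w))
      (Finset.mem_univ w)
    have hsplit2 := Finset.add_sum_erase Finset.univ
      (fun w : InfinitePlace K => (mult w : ℝ)) (Finset.mem_univ w)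
    have hle : ∑ w' ∈ Finset.univ.erase w, (mult w' : ℝ) * (Real.log (w' (c : K)) - t w') ≤
        ∑ w' ∈ Finset.univ.erase w, (mult w' : ℝ) * u :=
      Finset.sum_le_sum fun w' _ => mul_le_mul_of_nonneg_left (hX w') (Nat.cast_nonneg _)
    rw [← Finset.sum_mul] at hle
    rw [hsum] at hsplit2
    have hlow : -(3 * u) ≤ (mult w : ℝ) * (Real.log (w (c : K)) - t w) := by
      have e1 : ∑ w' ∈ Finset.univ.erase w, (mult w' : ℝ) = 3 - (mult w : ℝ) := by linarith
      rw [e1] at hle
      nlinarith
    rw [abs_le]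
    constructor
    · by_cases hneg : 0 ≤ Real.log (w (c : K)) - t w
      · linarith
      · push Not at hneg
        have : (mult w : ℝ) * (Real.log (w (c : K)) - t w) ≤ Real.log (w (c : K)) - t w := by
          nlinarith
        linarith
    · have := hX w
      linarith
  · rw [Ne, Ideal.span_singleton_eq_bot]
    exact hc
  · rw [Ideal.absNorm_span_singleton]
    have e1 : (((Algebra.norm ℤ c).natAbs : ℕ) : ℝ) = |(Algebra.norm ℤ c : ℝ)| := by
      rw [Nat.cast_natAbs, Int.cast_abs]
    rw [e1]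
    exact hN2

end Pool.Helper99.BK
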