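import Pool.Agent.Helper99.BK.Stmts

set_option autoImplicit false

/-! Module TTF of the crew table `bk_mods`. -/

namespace Pool.Helper99.BK

open NumberField

theorem st_TTF : ST_TTF := by
  intro K _ _ π hπ A ρ hA
  classical
  -- bound for the logarithms of the conjugates of `π`
  obtain ⟨M, hM⟩ : ∃ M : ℝ, ∀ σ : K →+* ℂ, |Real.log ‖σ (π : K)‖| ≤ M := by
    refine ⟨∑ σ : K →+* ℂ, |Real.log ‖σ (π : K)‖|, fun σ => ?_⟩
    exact Finset.single_le_sum (f := fun σ : K →+* ℂ => |Real.log ‖σ (π : K)‖|)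
      (fun _ _ => abs_nonneg _) (Finset.mem_univ σ)
  have hM0 : 0 ≤ M := by
    by_contra hneg
    have hne : Nonempty (K →+* ℂ) := inferInstance
    obtain ⟨σ⟩ := hne
    exact hneg ((abs_nonneg _).trans (hM σ))
  obtain ⟨N, hN⟩ : ∃ N : ℕ, ρ / A ≤ N := exists_nat_ge _
  have hfin := NumberField.Embeddings.finite_of_norm_le K ℂ (Real.exp (ρ + N * M))
  have h2 := (Set.finite_Icc (-(N : ℤ)) N).prod hfin
  have hinj : Function.Injective (fun x : ℤ × (𝓞 K)ˣ => (x.1, (((x.2 : 𝓞 K)) : K))) := by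
    intro x y hxy
    have h1 := congrArg Prod.fst hxy
    have h3 := congrArg Prod.snd hxy
    simp only at h1 h3
    exact Prod.ext h1 (Units.ext (RingOfIntegers.ext h3))
  refine (h2.preimage hinj.injOn).subset ?_
  rintro ⟨k, u⟩ ⟨hk, hu⟩
  simp only at hk hu
  have hkN : |(k : ℝ)| ≤ N := by
    refine le_trans ?_ hN
    rw [le_div_iff₀ hA]
    exact hk
  refine ⟨?_, ?_, ?_⟩
  · have := abs_le.1 hkN
    rw [Set.mem_Icc]
    constructor
    · exact_mod_cast this.1
    · exact_mod_cast this.2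
  · exact (u : 𝓞 K).isIntegral_coe
  · intro σ
    have hne : σ ((u : 𝓞 K) : K) ≠ 0 := by
      rw [Ne, map_eq_zero]
      exact RingOfIntegers.coe_ne_zero_iff.2 u.ne_zero
    have h4 := (abs_le.1 (hu σ)).2
    have h5 : -((k : ℝ) * Real.log ‖σ (π : K)‖) ≤ N * M := by
      refine (neg_le_abs _).trans ?_
      rw [abs_mul]
      exact mul_le_mul hkN (hM σ) (abs_nonneg _) (Nat.cast_nonneg _)
    have h6 : Real.log ‖σ ((u : 𝓞 K) : K)‖ ≤ ρ + N * M := by linarith
    rw [← Real.exp_log (norm_pos_iff.2 hne)]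
    exact Real.exp_le_exp.2 h6

end Pool.Helper99.BK
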